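import Mathlib

/-! # Radicals in abelian extensions of the rational numbers -/

set_option autoImplicit false

namespace Pool.Agent.TH893.BR

open Polynomial IntermediateField

/-- an element which is not an `r`-th power, `r` an odd prime, is not an `r`-th power in an
abelian extension -/
theorem abel_no_root' {k K : Type*} [Field k] [CharZero k] [Field K] [Algebra k K]
    [IsAbelianGalois k K]
    {r : ℕ} (hr : r.Prime) (hr2 : r ≠ 2) (hcyc : Irreducible (cyclotomic r k))
    {c : k} (hc : ∀ x : k, x ^ r ≠ c) (b : K) :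
    b ^ r ≠ algebraMap k K c := by
  intro hb
  have hc0 : c ≠ 0 := by
    rintro rfl
    exact hc 0 (zero_pow hr.ne_zero)
  have hirr : Irreducible (X ^ r - C c : k[X]) := X_pow_sub_C_irreducible_of_prime hr hc
  have hb0 : b ≠ 0 := by
    rintro rfl
    rw [zero_pow hr.ne_zero] at hb
    exact hc0 ((map_eq_zero _).1 hb.symm)
  have hint : IsIntegral k b := by
    refine IsIntegral.of_pow hr.pos ?_
    rw [hb]
    exact isIntegral_algebraMap
  have hmin : minpoly k b = X ^ r - C c := by
    symm
    refine minpoly.eq_of_irreducible_of_monic hirr ?_ (monic_X_pow_sub_C c hr.ne_zero)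
    rw [map_sub, map_pow, aeval_X, aeval_C, hb, sub_self]
  have hfr : Module.finrank k k⟮b⟯ = r := by
    rw [adjoin.finrank hint, hmin, natDegree_X_pow_sub_C]
  have hfd : FiniteDimensional k k⟮b⟯ := adjoin.finiteDimensional hint
  -- `k(b)` is normal, hence contains all the roots
  set g : k⟮b⟯ := AdjoinSimple.gen k b with hg
  have hgb : (g : K) = b := rfl
  have hgr : g ^ r = algebraMap k k⟮b⟯ c := by
    apply Subtype.ext
    push_cast
    rw [hgb, hb]
  have hg0 : g ≠ 0 := by
    intro h
    rw [h, zero_pow hr.ne_zero] at hgr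
    exact hc0 ((map_eq_zero _).1 hgr.symm)
  have hgmin : minpoly k g = X ^ r - C c := by
    symm
    refine minpoly.eq_of_irreducible_of_monic hirr ?_ (monic_X_pow_sub_C c hr.ne_zero)
    rw [map_sub, map_pow, aeval_X, aeval_C, hgr, sub_self]
  have hab : IsAbelianGalois k k⟮b⟯ := inferInstance
  have hnormal : Normal k k⟮b⟯ := inferInstance
  have hspl := hnormal.splits g
  rw [hgmin] at hspl
  have hsep : (X ^ r - C c : k[X]).Separable := hirr.separable
  have hnd : ((X ^ r - C c : k[X]).map (algebraMap k k⟮b⟯)).roots.Nodup :=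
    nodup_roots hsep.map
  have hcard : Multiset.card ((X ^ r - C c : k[X]).map (algebraMap k k⟮b⟯)).roots = r := by
    rw [← hspl.natDegree_eq_card_roots, natDegree_map, natDegree_X_pow_sub_C]
  -- another root
  obtain ⟨y, hy, hyg⟩ : ∃ y ∈ ((X ^ r - C c : k[X]).map (algebraMap k k⟮b⟯)).roots, y ≠ g := by
    by_contra hcon
    push Not at hcon
    have h1 : Multiset.card ((X ^ r - C c : k[X]).map (algebraMap k k⟮b⟯)).roots ≤ 1 := by
      have h2 : ((X ^ r - C c : k[X]).map (algebraMap k k⟮b⟯)).roots ≤ {g} := by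
        rw [Multiset.le_iff_subset hnd]
        intro z hz
        rw [Multiset.mem_singleton]
        exact hcon z hz
      exact Multiset.card_le_card h2
    rw [hcard] at h1
    exact absurd hr.one_lt (by omega)
  have hyr : y ^ r = algebraMap k k⟮b⟯ c := by
    have h1 := isRoot_of_mem_roots hy
    rw [IsRoot.def, eval_map_algebraMap, map_sub, map_pow, aeval_X, aeval_C, sub_eq_zero] at h1
    exact h1
  set ζ : k⟮b⟯ := y / g with hζ
  have hζr : ζ ^ r = 1 := by
    rw [hζ, div_pow, hyr, hgr]
    exact div_self (by rwa [Ne, map_eq_zero])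
  have hζ1 : ζ ≠ 1 := by
    intro h
    rw [hζ, div_eq_one_iff_eq hg0] at h
    exact hyg h
  have hprim : IsPrimitiveRoot ζ r := by
    have : Fact r.Prime := ⟨hr⟩
    rw [← orderOf_eq_prime hζr hζ1]
    exact IsPrimitiveRoot.orderOf ζ
  have hdeg : (minpoly k ζ).natDegree = r - 1 := by
    have : NeZero ((r : ℕ) : k) := ⟨by exact_mod_cast hr.ne_zero⟩
    rw [← hprim.minpoly_eq_cyclotomic_of_irreducible hcyc, natDegree_cyclotomic,
      Nat.totient_prime hr]
  have hdvd := minpoly.degree_dvd (K := k) (L := k⟮b⟯) (x := ζ) (IsIntegral.of_finite k ζ)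
  rw [hdeg, hfr] at hdvd
  have h3 : r - 1 ∣ 1 := by
    have h4 : r = (r - 1) + 1 := by have := hr.pos; omega
    have h5 : r - 1 ∣ (r - 1) + 1 := by rw [← h4]; exact hdvd
    exact (Nat.dvd_add_right (dvd_refl _)).1 h5
  have h6 := Nat.dvd_one.1 h3
  have := hr.two_le
  omega

/-- a rational number which is not an `r`-th power, `r` an odd prime, is not an `r`-th power in an
abelian extension of the rational numbers -/
theorem abel_no_root {K : Type*} [Field K] [Algebra ℚ K] [IsAbelianGalois ℚ K]
    {r : ℕ} (hr : r.Prime) (hr2 : r ≠ 2) {c : ℚ} (hc : ∀ x : ℚ, x ^ r ≠ c) (b : K) :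
    b ^ r ≠ algebraMap ℚ K c :=
  abel_no_root' hr hr2 (cyclotomic.irreducible_rat hr.pos) hc b

/-- an integer which is an `r`-th power of a rational number is an `r`-th power -/
lemma rat_pow {r : ℕ} (hr : 0 < r) {B : ℤ} (h : ∀ c : ℤ, c ^ r ≠ B) (x : ℚ) : x ^ r ≠ (B : ℚ) := by
  intro hx
  have hint : IsIntegral ℤ x := by
    refine IsIntegral.of_pow hr ?_
    rw [hx]
    exact isIntegral_algebraMap (R := ℤ) (A := ℚ) (x := B)
  obtain ⟨c, hc⟩ := IsIntegrallyClosed.isIntegral_iff.1 hint
  apply h c
  have h1 : ((c : ℚ)) = x := by rw [← hc]; rfl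
  have h2 : ((c ^ r : ℤ) : ℚ) = B := by
    push_cast
    rw [h1, hx]
  exact_mod_cast h2

end Pool.Agent.TH893.BR
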