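import Mathlib
import Pool.Agent.W171.LG.Kum

/-! # Quadratic subfields of cyclotomic fields -/

set_option autoImplicit false

namespace Pool.Agent.TH893.BR

/-- the square root of `± q` in a field with a primitive `q`-th root of unity -/
theorem gauss_root {K : Type*} [Field K] [CharZero K] {q : ℕ} (hq : q.Prime) (hq2 : q ≠ 2) {ζ : K}
    (hζ : IsPrimitiveRoot ζ q) : ∃ g : K, g ^ 2 = (((ZMod.χ₄ (q : ZMod 4) : ℤ)) : K) * (q : K) := by
  classical
  have : Fact q.Prime := ⟨hq⟩
  have : NeZero q := ⟨hq.ne_zero⟩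
  have hchar : ringChar (ZMod q) ≠ 2 := by
    rw [ZMod.ringChar_zmod_n]
    exact hq2
  set χ : MulChar (ZMod q) K := (quadraticChar (ZMod q)).ringHomComp (Int.castRingHom K) with hχ
  have hχ1 : χ ≠ 1 := by
    intro h
    obtain ⟨a, ha⟩ := quadraticChar_exists_neg_one' hchar
    have h1 := DFunLike.congr_fun h (a : ZMod q)
    rw [hχ, MulChar.ringHomComp_apply, ha, MulChar.one_apply a.isUnit] at h1
    have h2 : ((-1 : ℤ) : K) = 1 := h1
    have h3 : (-1 : ℤ) = 1 := by exact_mod_cast h2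
    omega
  have hχ2 : χ.IsQuadratic := (quadraticChar_isQuadratic (ZMod q)).comp _
  have h := gaussSum_sq hχ1 hχ2 (AddChar.zmodChar_primitive_of_primitive_root q hζ)
  refine ⟨_, h.trans ?_⟩
  rw [ZMod.card]
  congr 1
  rw [hχ, MulChar.ringHomComp_apply, quadraticChar_neg_one hchar, ZMod.card]
  rfl

/-- the square root of `± m` -/
theorem gauss_root_odd {K : Type*} [Field K] [CharZero K] {n : ℕ} {ζ : K} (hn : 0 < n)
    (hζ : IsPrimitiveRoot ζ n) (m : ℕ) (hm : Odd m) (hmn : ∀ q : ℕ, q.Prime → q ∣ m → q ∣ n) :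
    ∃ g : K, g ^ 2 = (((ZMod.χ₄ (m : ZMod 4) : ℤ)) : K) * (m : K) := by
  induction m using Nat.recOnMul with
  | zero => exact absurd hm (by decide)
  | one => exact ⟨1, by simp⟩
  | prime q hq =>
    have hq2 : q ≠ 2 := by
      rintro rfl
      exact absurd hm (by decide)
    obtain ⟨c, hc⟩ := hmn q hq dvd_rfl
    exact gauss_root hq hq2 (hζ.pow hn (by rw [hc, mul_comm]))
  | mul a b iha ihb =>
    rw [Nat.odd_mul] at hm
    obtain ⟨g, hg⟩ := iha hm.1 fun q hq h => hmn q hq (h.mul_right _)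
    obtain ⟨g', hg'⟩ := ihb hm.2 fun q hq h => hmn q hq (h.mul_left _)
    refine ⟨g * g', ?_⟩
    rw [mul_pow, hg, hg', Nat.cast_mul, map_mul]
    push_cast
    ring

/-- the square root of an integer `D ≡ 1 mod 4` in a field of roots of unity -/
theorem sqrt_mem {K : Type*} [Field K] [CharZero K] {n : ℕ} {ζ : K} (hn : 0 < n)
    (hζ : IsPrimitiveRoot ζ n) (D : ℤ) (hD : D % 4 = 1)
    (hDn : ∀ q : ℕ, q.Prime → (q : ℤ) ∣ D → q ∣ n) : ∃ g : K, g ^ 2 = (D : K) := by
  have hodd : Odd D.natAbs := by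
    rw [Int.natAbs_odd, Int.odd_iff]
    omega
  obtain ⟨g, hg⟩ := gauss_root_odd hn hζ D.natAbs hodd fun q hq h =>
    hDn q hq (Int.natCast_dvd.2 h)
  refine ⟨g, hg.trans ?_⟩
  have key : (ZMod.χ₄ (D.natAbs : ZMod 4) : ℤ) * (D.natAbs : ℤ) = D := by
    rcases le_or_gt 0 D with h0 | h0
    · have h1 : D.natAbs % 4 = 1 := by omega
      have h2 := ZMod.χ₄_nat_one_mod_four h1
      rw [h2, one_mul]
      omega
    · have h1 : D.natAbs % 4 = 3 := by omega
      have h2 := ZMod.χ₄_nat_three_mod_four h1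
      rw [h2]
      omega
  have h2 : ((D.natAbs : ℕ) : K) = (((D.natAbs : ℕ) : ℤ) : K) := (Int.cast_natCast _).symm
  rw [h2, ← Int.cast_mul, key]

open NumberField in
/-- if the cyclotomic field contains the square root of the squarefree integer `D`, then its level is
divisible by the prime factors of `D` -/
theorem dvd_of_sqrt {K : Type} [Field K] [NumberField K] {n : ℕ} (hn : n ≠ 0)
    [IsCyclotomicExtension {n} ℚ K] (D : ℤ) (hD : Squarefree D) {g : K} (hg : g ^ 2 = (D : K))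
    {q : ℕ} (hq : q.Prime) (hqD : (q : ℤ) ∣ D) : q ∣ n := by
  by_contra hcon
  have : Fact q.Prime := ⟨hq⟩
  have : NeZero n := ⟨hn⟩
  obtain ⟨P, hP, hl⟩ := Pool.Agent.W171.LG.exists_over (K := K) hq
  have hram : Ideal.ramificationIdx P ℤ = 1 :=
    IsCyclotomicExtension.Rat.ramificationIdx_eq_of_not_dvd q K P (m := n) hcon
  refine Pool.Agent.W171.LG.no_root (t := 1) (r := 2) hq two_pos P hram (u := D) (by simpa using hqD)
    ?_ (by norm_num) g hg
  intro h
  have h1 : (q : ℤ) * q ∣ D := by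
    rw [← sq]
    exact h
  have h2 := hD _ h1
  exact (Nat.prime_iff_prime_int.1 hq).not_isUnit h2

end Pool.Agent.TH893.BR
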