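import Pool.Agent.W171.LG.Two
import Pool.Agent.TH893.BR.Abel
import Pool.Agent.TH893.BR.Quad

/-! # The degrees of the fields of roots of an integer `B` with squarefree part `D ≡ 1 mod 4` -/

set_option autoImplicit false

namespace Pool.Agent.TH893.BR

open IntermediateField NumberField
open Pool.Agent.W171.LG (QA Kf Lf_zpowers finrank_radical finrank_sup_adjoin deg_root)

/-- the bases: `B = D k²` is not a perfect power, `D` is squarefree, `D ≡ 1 mod 4` -/
structure Bs where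
  /-- the base -/
  B : ℤ
  /-- its squarefree part -/
  D : ℤ
  /-- the square -/
  k : ℤ
  hB : B = D * k ^ 2
  hD : Squarefree D
  h4 : D % 4 = 1
  hk : k ≠ 0
  hpow : ∀ r : ℕ, 1 < r → ∀ c : ℤ, c ^ r ≠ B

lemma Bs.B0 (s : Bs) : s.B ≠ 0 := fun h => s.hpow 2 one_lt_two 0 (by rw [h]; norm_num)

lemma Bs.BQ (s : Bs) : (s.B : ℚ) ≠ 0 := by exact_mod_cast s.B0

/-- the base as a unit -/
noncomputable def Bs.u (s : Bs) : ℚˣ := Units.mk0 (s.B : ℚ) s.BQ

lemma Bs.u_coe (s : Bs) : ((s.u : ℚˣ) : ℚ) = (s.B : ℚ) := rfl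

lemma Bs.no_pow (s : Bs) {r : ℕ} (hr : r.Prime) (x : ℚ) : x ^ r ≠ (s.B : ℚ) :=
  rat_pow hr.pos (s.hpow r hr.one_lt) x

/-- the condition of entanglement -/
def Bs.Ent (s : Bs) (n : ℕ) : Prop := ∀ q : ℕ, q.Prime → (q : ℤ) ∣ s.D → q ∣ n

section
variable (s : Bs)

/-- no roots of odd prime order in cyclotomic fields -/
lemma no_root_cyc {K : Type} [Field K] [NumberField K] {n : ℕ} [IsCyclotomicExtension {n} ℚ K]
    {r : ℕ} (hr : r.Prime) (hr2 : r ≠ 2) (b : K) : b ^ r ≠ (s.B : K) := by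
  have : IsAbelianGalois ℚ K := IsCyclotomicExtension.isAbelianGalois {n} ℚ K
  intro h
  refine abel_no_root hr hr2 (s.no_pow hr) b ?_
  rw [h]
  simp

lemma no_sqrt_cyc {K : Type} [Field K] [NumberField K] {n : ℕ} (hn : n ≠ 0)
    [IsCyclotomicExtension {n} ℚ K] (h : ¬ s.Ent n) (b : K) : b ^ 2 ≠ (s.B : K) := by
  intro hb
  apply h
  intro q hq hqD
  have hk : (s.k : K) ≠ 0 := by exact_mod_cast s.hk
  refine dvd_of_sqrt (K := K) hn s.D s.hD (g := b / s.k) ?_ hq hqD
  rw [div_pow, hb, s.hB]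
  push_cast
  field_simp

end

/-- the field of roots, generated by a root of unity and a root -/
theorem finrank_B (s : Bs) {a b : ℕ} (hab : Squarefree (a * b)) :
    (¬ (2 ∣ a ∧ s.Ent (a * b)) →
      Module.finrank ℚ (Kf (⊥ : IntermediateField ℚ QA) (Subgroup.zpowers s.u) ⊥ a b) =
        a * Nat.totient (a * b)) ∧
    (2 ∣ a ∧ s.Ent (a * b) →
      2 * Module.finrank ℚ (Kf (⊥ : IntermediateField ℚ QA) (Subgroup.zpowers s.u) ⊥ a b) =
        a * Nat.totient (a * b)) := by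
  have hn0 : a * b ≠ 0 := hab.ne_zero
  have ha : 0 < a := Nat.pos_of_ne_zero (left_ne_zero_of_mul hn0)
  have hb : 0 < b := Nat.pos_of_ne_zero (right_ne_zero_of_mul hn0)
  have hcop : Nat.Coprime a b := Nat.coprime_of_squarefree_mul hab
  have : NeZero (a * b) := ⟨hn0⟩
  obtain ⟨ζ, hζ⟩ := HasEnoughRootsOfUnity.exists_primitiveRoot QA (a * b)
  obtain ⟨α, hα⟩ := IsAlgClosed.exists_pow_nat_eq (algebraMap ℚ QA (s.u : ℚ)) ha
  unfold Kf
  rw [bot_sup_eq, Lf_zpowers s.u ha hb hcop hζ hα]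
  set K0 : IntermediateField ℚ QA := adjoin ℚ {ζ} with hK0
  have hint : IsIntegral ℚ ζ := by
    have h1 : IsIntegral ℤ ζ := hζ.isIntegral (Nat.pos_of_ne_zero hn0)
    exact h1.tower_top
  have hcyc : IsCyclotomicExtension {a * b} ℚ K0 :=
    (IntermediateField.isCyclotomicExtension_singleton_iff_eq_adjoin (a * b) ℚ QA K0 hζ).2 rfl
  have hfin : FiniteDimensional ℚ K0 := IsCyclotomicExtension.finite_of_singleton (a * b) ℚ K0
  have : NumberField K0 := { to_charZero := inferInstance, to_finiteDimensional := hfin }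
  have hdeg : Module.finrank ℚ K0 = Nat.totient (a * b) :=
    IsCyclotomicExtension.finrank (n := a * b) K0
      (Polynomial.cyclotomic.irreducible_rat (Nat.pos_of_ne_zero hn0))
  have hζ' : IsPrimitiveRoot (⟨ζ, mem_adjoin_simple_self ℚ ζ⟩ : K0) (a * b) := by
    refine IsPrimitiveRoot.of_map_of_injective (f := K0.val) ?_ K0.val.injective
    exact hζ
  have hζa : IsPrimitiveRoot ((⟨ζ, mem_adjoin_simple_self ℚ ζ⟩ : K0) ^ b) a :=
    hζ'.pow (Nat.pos_of_ne_zero hn0) (mul_comm a b)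
  constructor
  · intro hE
    have key := finrank_radical K0 ha hζa s.u.ne_zero hα (fun r hr hra c hc => by
      rw [s.u_coe] at hc
      by_cases hr2 : r = 2
      · subst hr2
        have hE' : ¬ s.Ent (a * b) := fun h => hE ⟨hra, h⟩
        refine no_sqrt_cyc s (K := K0) hn0 hE' c ?_
        rw [hc]
        simp
      · refine no_root_cyc s (K := K0) (n := a * b) hr hr2 c ?_
        rw [hc]
        simp)
    rw [key, mul_comm]
    congr 1
  · rintro ⟨⟨a', rfl⟩, hE⟩
    have ha' : 0 < a' := by omega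
    obtain ⟨g, hg⟩ := sqrt_mem (K := K0) (Nat.pos_of_ne_zero hn0) hζ' s.D s.h4 hE
    -- the square root of `B`
    have hβ : ((s.k : K0) * g) ^ 2 = (s.B : K0) := by
      rw [mul_pow, hg, s.hB]
      push_cast
      ring
    have hγ : (α ^ a') ^ 2 = ((s.B : K0) : QA) := by
      rw [← pow_mul, mul_comm, hα, s.u_coe]
      simp
    obtain ⟨β, hβ2, hβα⟩ : ∃ β : K0, β ^ 2 = (s.B : K0) ∧ α ^ a' = algebraMap K0 QA β := by
      have h1 : (α ^ a') ^ 2 = (((s.k : K0) * g : K0) : QA) ^ 2 := by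
        rw [hγ, ← hβ]
        push_cast
        rfl
      rcases sq_eq_sq_iff_eq_or_eq_neg.1 h1 with h2 | h2
      · exact ⟨_, hβ, h2⟩
      · refine ⟨-((s.k : K0) * g), by rw [neg_sq, hβ], ?_⟩
        rw [map_neg]
        exact h2
    have hβ0 : β ≠ 0 := by
      rintro rfl
      rw [zero_pow two_ne_zero] at hβ2
      have : ((s.B : ℤ) : K0) ≠ 0 := by exact_mod_cast s.B0
      exact this hβ2.symm
    have hint : IsIntegral K0 α := by
      refine IsIntegral.of_pow ha' ?_
      rw [hβα]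
      exact isIntegral_algebraMap
    have hζa' : IsPrimitiveRoot (((⟨ζ, mem_adjoin_simple_self ℚ ζ⟩ : K0) ^ b) ^ 2) a' :=
      hζa.pow ha (by ring)
    have hd := deg_root ha' hζa' hβ0 hβα (fun r hr hra c hc => by
      have hr2 : r ≠ 2 := by
        rintro rfl
        obtain ⟨t, rfl⟩ := hra
        have h3 := hab 2 ⟨t * b, by ring⟩
        exact absurd (Nat.isUnit_iff.1 h3) (by norm_num)
      refine no_root_cyc s (K := K0) (n := 2 * a' * b) hr hr2 (c ^ 2) ?_
      rw [← pow_mul, mul_comm, pow_mul, hc, hβ2])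
    rw [finrank_sup_adjoin K0 α hint, hd]
    have e : Module.finrank ℚ K0 = Nat.totient (2 * a' * b) := hdeg
    calc 2 * (Module.finrank ℚ K0 * a') = 2 * a' * Module.finrank ℚ K0 := by ring
      _ = 2 * a' * Nat.totient (2 * a' * b) := by congr 1

end Pool.Agent.TH893.BR
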