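import Pool.Agent.W171.LG.PowTwo
import Pool.Agent.TH893.BR.Deg

/-! # The limit density for the base `B` -/

set_option autoImplicit false
set_option linter.unusedSectionVars false

namespace Pool.Agent.TH893.BR

open NumberField Filter Topology Finset
open Pool.Agent.W401.Cheb
open Pool.Agent.W171.LG
open Pool.Agent.H386R2.Artin (PP Good hL LC_pos artinL artinC artinLim)
open Pool.Agent.H981R3.LN (ql Sk mem_Sk mem_PP Sk_dvd Sk_prime)

variable (s : Bs)

lemma Bs.D0 : s.D ≠ 0 := by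
  intro h
  apply s.B0
  rw [s.hB, h, zero_mul]

/-- the prime factors of `D` -/
def Bs.PD : Finset ℕ := s.D.natAbs.primeFactors

lemma mem_PD {q : ℕ} : q ∈ s.PD ↔ q.Prime ∧ (q : ℤ) ∣ s.D := by
  unfold Bs.PD
  rw [Nat.mem_primeFactors, Int.natCast_dvd]
  constructor
  · exact fun h => ⟨h.1, h.2.1⟩
  · exact fun h => ⟨h.1, h.2, Int.natAbs_ne_zero.2 s.D0⟩

lemma two_notMem_PD : 2 ∉ s.PD := by
  rw [mem_PD]
  rintro ⟨-, h⟩
  have := s.h4
  omega

/-- the primes involved in the entanglement -/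
def Bs.T : Finset ℕ := insert 2 s.PD

lemma T_prime {l : ℕ} (hl : l ∈ s.T) : l.Prime := by
  unfold Bs.T at hl
  rw [mem_insert] at hl
  rcases hl with rfl | hl
  · exact Nat.prime_two
  · exact ((mem_PD s).1 hl).1

lemma prime_dvd_prod {S : Finset ℕ} (hS : ∀ l ∈ S, l.Prime) {q : ℕ} (hq : q.Prime) :
    q ∣ ∏ l ∈ S, l ↔ q ∈ S := by
  constructor
  · intro h
    obtain ⟨l, hl, hql⟩ := (Nat.Prime.prime hq).exists_mem_finset_dvd h
    rwa [(Nat.prime_dvd_prime_iff_eq hq (hS l hl)).1 hql]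
  · exact fun h => Finset.dvd_prod_of_mem _ h

open Classical in
lemma dn_B (J K : Finset ℕ) (hJ : ∀ l ∈ J, l.Prime) (hK : ∀ l ∈ K, l.Prime)
    (hd : Disjoint J K) : dn Q0 Set.univ (Subgroup.zpowers s.u) ⊥ 1 J K =
      (if 2 ∈ J ∧ s.PD ⊆ J ∪ K then 2 else 1) *
      ((∏ l ∈ J, (1 / ((l : ℝ) * ((l : ℝ) - 1)))) * ∏ l ∈ K, (1 / ((l : ℝ) - 1))) := by
  have hJK : ∀ l ∈ J ∪ K, l.Prime := fun l hl => by
    rw [mem_union] at hl
    exact hl.elim (hJ l) (hK l)
  have hprod : (∏ l ∈ J, l) * ∏ l ∈ K, l = ∏ l ∈ J ∪ K, l := (Finset.prod_union hd).symm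
  have hsq : Squarefree ((∏ l ∈ J, l) * ∏ l ∈ K, l) := by
    rw [hprod]
    exact sqf_prod_primes _ hJK
  have eJ : ∏ l ∈ J, ql 1 l = ∏ l ∈ J, l := Finset.prod_congr rfl fun l _ => ql_one l
  have eK : ∏ l ∈ K, ql 1 l = ∏ l ∈ K, l := Finset.prod_congr rfl fun l _ => ql_one l
  have hcond : (2 ∣ ∏ l ∈ J, l ∧ s.Ent ((∏ l ∈ J, l) * ∏ l ∈ K, l)) ↔
      (2 ∈ J ∧ s.PD ⊆ J ∪ K) := by
    rw [prime_dvd_prod hJ Nat.prime_two]
    refine and_congr_right fun _ => ?_
    unfold Bs.Ent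
    rw [hprod]
    constructor
    · intro h q hq
      rw [mem_PD] at hq
      exact (prime_dvd_prod hJK hq.1).1 (h q hq.1 hq.2)
    · intro h q hq hqD
      exact (prime_dvd_prod hJK hq).2 (h ((mem_PD s).2 ⟨hq, hqD⟩))
  obtain ⟨hdeg1, hdeg2⟩ := finrank_B s hsq
  have htot : ∀ S : Finset ℕ, (∀ l ∈ S, l.Prime) →
      ((Nat.totient (∏ l ∈ S, l) : ℕ) : ℝ) = ∏ l ∈ S, ((l : ℝ) - 1) := by
    intro S
    induction S using Finset.induction_on with
    | empty => intro _; simp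
    | insert l S hl ih =>
      intro h
      rw [Finset.prod_insert hl, Finset.prod_insert hl, Nat.totient_mul]
      · push_cast
        rw [ih fun x hx => h x (mem_insert_of_mem hx), Nat.totient_prime (h l (mem_insert_self _ _)),
          Nat.cast_sub (h l (mem_insert_self _ _)).one_lt.le]
        simp
      · apply Nat.Coprime.prod_right
        intro x hx
        rw [Nat.coprime_primes (h l (mem_insert_self _ _)) (h x (mem_insert_of_mem hx))]
        rintro rfl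
        exact hl hx
  -- the product of the degrees
  have e0 : (1 : ℝ) / (((∏ l ∈ J, l) * Nat.totient ((∏ l ∈ J, l) * ∏ l ∈ K, l) : ℕ) : ℝ) =
      (∏ l ∈ J, (1 / ((l : ℝ) * ((l : ℝ) - 1)))) * ∏ l ∈ K, (1 / ((l : ℝ) - 1)) := by
    rw [hprod]
    push_cast
    rw [htot (J ∪ K) hJK, Finset.prod_union hd, Finset.prod_div_distrib,
      Finset.prod_div_distrib, Finset.prod_const_one, Finset.prod_const_one, Finset.prod_mul_distrib]
    rw [div_mul_div_comm]
    ring_nf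
  unfold dn
  rw [cE_triv, eJ, eK, ← e0]
  by_cases h : 2 ∈ J ∧ s.PD ⊆ J ∪ K
  · rw [if_pos h, ← hdeg2 (hcond.2 h)]
    have hpos : 0 < Module.finrank ℚ (Kf (⊥ : IntermediateField ℚ QA) (Subgroup.zpowers s.u) ⊥
        (∏ l ∈ J, l) (∏ l ∈ K, l)) := by
      have h1 := hdeg2 (hcond.2 h)
      have h2 : 0 < (∏ l ∈ J, l) * Nat.totient ((∏ l ∈ J, l) * ∏ l ∈ K, l) :=
        Nat.mul_pos (Finset.prod_pos fun l hl => (hJ l hl).pos)
          (Nat.totient_pos.2 (Nat.pos_of_ne_zero hsq.ne_zero))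
      omega
    have hpos' : (0 : ℝ) < ((Module.finrank ℚ (Kf (⊥ : IntermediateField ℚ QA)
        (Subgroup.zpowers s.u) ⊥ (∏ l ∈ J, l) (∏ l ∈ K, l)) : ℕ) : ℝ) := by exact_mod_cast hpos
    push_cast
    field_simp
  · rw [if_neg h, hdeg1 (fun h' => h (hcond.1 h'))]
    push_cast
    ring

/-- a sum over pairs of sets -/
lemma sum_split (V R : Finset ℕ) (hRV : R ⊆ V) (h : Finset ℕ → ℝ) :
    ∑ K ∈ (V \ R).powerset, ∑ J ∈ R.powerset, h (J ∪ K) = ∑ S ∈ V.powerset, h S := by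
  classical
  rw [← Finset.sum_product']
  refine Finset.sum_nbij' (fun x => x.2 ∪ x.1) (fun S => (S \ R, S ∩ R)) ?_ ?_ ?_ ?_ ?_
  · intro x hx
    rw [mem_product, mem_powerset, mem_powerset] at hx
    rw [mem_powerset]
    exact union_subset (hx.2.trans hRV) (hx.1.trans sdiff_subset)
  · intro S hS
    rw [mem_powerset] at hS
    rw [mem_product, mem_powerset, mem_powerset]
    exact ⟨sdiff_subset_sdiff hS le_rfl, inter_subset_right⟩
  · intro x hx
    rw [mem_product, mem_powerset, mem_powerset] at hx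
    obtain ⟨K, J⟩ := x
    simp only at hx ⊢
    have hKR : Disjoint K R := (Finset.subset_sdiff.1 hx.1).2
    have h1 : (J ∪ K) \ R = K := by
      rw [union_sdiff_distrib, sdiff_eq_empty_iff_subset.2 hx.2, empty_union]
      exact sdiff_eq_self_of_disjoint hKR
    have h2 : (J ∪ K) ∩ R = J := by
      rw [union_inter_distrib_right, inter_eq_left.2 hx.2, disjoint_iff_inter_eq_empty.1 hKR,
        union_empty]
    rw [h1, h2]
  · intro S hS
    simp only
    rw [union_comm]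
    exact sdiff_union_inter S R
  · intro x hx
    rfl

/-- a sum over the sets which contain `T` -/
lemma sum_contain (V T : Finset ℕ) (hT : T ⊆ V) (x : ℕ → ℝ) (hx : ∀ l ∈ V, 1 + x l ≠ 0) :
    ∑ S ∈ V.powerset, (if T ⊆ S then (1 : ℝ) else 0) * ∏ l ∈ S, x l =
      (∏ l ∈ V, (1 + x l)) * ∏ l ∈ T, (x l / (1 + x l)) := by
  classical
  have h1 : ∏ l ∈ V, (x l + (if l ∈ T then (0 : ℝ) else 1)) =
      ∑ S ∈ V.powerset, (if T ⊆ S then (1 : ℝ) else 0) * ∏ l ∈ S, x l := by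
    rw [Finset.prod_add]
    refine Finset.sum_congr rfl fun S hS => ?_
    rw [mul_comm]
    congr 1
    by_cases h : T ⊆ S
    · rw [if_pos h]
      refine Finset.prod_eq_one fun l hl => ?_
      rw [Finset.mem_sdiff] at hl
      rw [if_neg (fun h' => hl.2 (h h'))]
    · rw [if_neg h]
      rw [Finset.not_subset] at h
      obtain ⟨l, hl, hlS⟩ := h
      refine Finset.prod_eq_zero (i := l) (Finset.mem_sdiff.2 ⟨hT hl, hlS⟩) ?_
      rw [if_pos hl]
  rw [← h1, ← Finset.prod_sdiff hT, ← Finset.prod_sdiff hT (f := fun l => 1 + x l), mul_assoc,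
    ← Finset.prod_mul_distrib]
  congr 1
  · refine Finset.prod_congr rfl fun l hl => ?_
    rw [Finset.mem_sdiff] at hl
    rw [if_neg hl.2, add_comm]
  · refine Finset.prod_congr rfl fun l hl => ?_
    rw [if_pos hl, add_zero]
    have := hx l (hT hl)
    field_simp

/-- the correction factor -/
noncomputable def Bs.cf (s : Bs) : ℝ :=
  1 - ((ArithmeticFunction.moebius s.D.natAbs : ℤ) : ℝ) *
    ∏ q ∈ s.D.natAbs.primeFactors, (1 / ((q : ℝ) ^ 2 - (q : ℝ) - 1))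

/-- the factor in front of Artin's constant -/
noncomputable def Bs.e (s : Bs) (R : Finset ℕ) : ℝ := if 2 ∈ R then s.cf else 1

lemma moebius_eq (s : Bs) : ((ArithmeticFunction.moebius s.D.natAbs : ℤ) : ℝ) =
    ∏ _q ∈ s.D.natAbs.primeFactors, (-1 : ℝ) := by
  have hsq : Squarefree s.D.natAbs := Int.squarefree_natAbs.2 s.hD
  rw [ArithmeticFunction.moebius_apply_of_squarefree hsq,
    ← (ArithmeticFunction.cardDistinctFactors_eq_cardFactors_iff_squarefree hsq.ne_zero).2 hsq,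
    ArithmeticFunction.cardDistinctFactors_apply, Finset.prod_const]
  push_cast
  rfl

lemma prod_T : ∏ l ∈ s.T, ((-(1 / ((l : ℝ) * ((l : ℝ) - 1)))) /
    (1 + (-(1 / ((l : ℝ) * ((l : ℝ) - 1)))))) = s.cf - 1 := by
  have h1 : ∀ l ∈ s.T, ((-(1 / ((l : ℝ) * ((l : ℝ) - 1)))) /
      (1 + (-(1 / ((l : ℝ) * ((l : ℝ) - 1)))))) = -1 * (1 / ((l : ℝ) ^ 2 - (l : ℝ) - 1)) := by
    intro l hl
    have hl2 : (2 : ℝ) ≤ l := by exact_mod_cast (T_prime s hl).two_le
    have h5 : (l : ℝ) ^ 2 - (l : ℝ) - 1 = (l : ℝ) * ((l : ℝ) - 1) - 1 := by ring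
    rw [h5]
    have h6 : (2 : ℝ) ≤ (l : ℝ) * ((l : ℝ) - 1) := by nlinarith
    generalize (l : ℝ) * ((l : ℝ) - 1) = y at h6
    have hy : y ≠ 0 := by
      have : (0 : ℝ) < y := by linarith
      exact this.ne'
    have hy1 : y - 1 ≠ 0 := by
      have : (0 : ℝ) < y - 1 := by linarith
      exact this.ne'
    have h4 : 1 + (-(1 / y)) = (y - 1) / y := by
      field_simp
      ring
    rw [h4]
    field_simp
  rw [Finset.prod_congr rfl h1]
  unfold Bs.T
  rw [Finset.prod_insert (two_notMem_PD s), Finset.prod_mul_distrib]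
  unfold Bs.cf Bs.PD
  rw [moebius_eq]
  push_cast
  ring

open Classical in
/-- the truncated limit density -/
lemma dLr_B (R : Finset ℕ) (hR : ∀ l ∈ R, l.Prime) (L : ℕ) (hL : ∀ l ∈ R, l ≤ L)
    (hT : ∀ l ∈ s.T, l ≤ L) :
    dLr Q0 Set.univ (Subgroup.zpowers s.u) ⊥ 1 R L = s.e R * artinL L := by
  unfold dLr
  have hRL : R ⊆ PP L := fun l hl => mem_PP.2 ⟨hL l hl, hR l hl⟩
  have hTL : s.T ⊆ PP L := fun l hl => mem_PP.2 ⟨hT l hl, T_prime s hl⟩
  have hset : (PP L).powerset.filter (fun K => Disjoint K R) = (PP L \ R).powerset := by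
    ext K
    rw [mem_filter, mem_powerset, mem_powerset, Finset.subset_sdiff]
  rw [hset]
  set x : ℕ → ℝ := fun l => -(1 / ((l : ℝ) * ((l : ℝ) - 1))) with hx
  set h : Finset ℕ → ℝ := fun S =>
    ∏ l ∈ S, x l + (if 2 ∈ R then 1 else 0) * ((if s.T ⊆ S then (1 : ℝ) else 0) * ∏ l ∈ S, x l)
    with hh
  have e1 : ∀ K ∈ (PP L \ R).powerset, (-1 : ℝ) ^ #K * (1 / ((∏ l ∈ K, ql 1 l : ℕ) : ℝ)) *
      ∑ J ∈ R.powerset, (-1 : ℝ) ^ #J * dn Q0 Set.univ (Subgroup.zpowers s.u) ⊥ 1 J K =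
      ∑ J ∈ R.powerset, h (J ∪ K) := by
    intro K hK
    rw [mem_powerset, Finset.subset_sdiff] at hK
    rw [Finset.mul_sum]
    refine Finset.sum_congr rfl fun J hJ => ?_
    rw [mem_powerset] at hJ
    have hdJK : Disjoint J K := (Finset.disjoint_of_subset_right hJ hK.2).symm
    rw [dn_B s J K (fun l hl => hR l (hJ hl)) (fun l hl => (mem_PP.1 (hK.1 hl)).2) hdJK]
    have hcond : (2 ∈ J ∧ s.PD ⊆ J ∪ K) ↔ (2 ∈ R ∧ s.T ⊆ J ∪ K) := by
      unfold Bs.T
      rw [Finset.insert_subset_iff]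
      constructor
      · rintro ⟨h1, h2⟩
        exact ⟨hJ h1, mem_union_left _ h1, h2⟩
      · rintro ⟨h1, h2, h3⟩
        refine ⟨?_, h3⟩
        rcases mem_union.1 h2 with h4 | h4
        · exact h4
        · exact absurd h1 (Finset.disjoint_left.1 hK.2 h4)
    have e2 : (if 2 ∈ J ∧ s.PD ⊆ J ∪ K then (2 : ℝ) else 1) =
        1 + (if 2 ∈ R then 1 else 0) * (if s.T ⊆ J ∪ K then (1 : ℝ) else 0) := by
      by_cases h1 : 2 ∈ R <;> by_cases h2 : s.T ⊆ J ∪ K
      · rw [if_pos (hcond.2 ⟨h1, h2⟩), if_pos h1, if_pos h2]; norm_num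
      · rw [if_neg (fun h3 => h2 (hcond.1 h3).2), if_neg h2]; norm_num
      · rw [if_neg (fun h3 => h1 (hcond.1 h3).1), if_neg h1]; norm_num
      · rw [if_neg (fun h3 => h1 (hcond.1 h3).1), if_neg h1]; norm_num
    rw [e2]
    simp only [hh, ql_one]
    rw [Finset.prod_union hdJK]
    have e3 : ∏ l ∈ J, x l = (-1 : ℝ) ^ #J * ∏ l ∈ J, (1 / ((l : ℝ) * ((l : ℝ) - 1))) := by
      simp only [hx]
      rw [Finset.prod_neg]
    have e4 : ∏ l ∈ K, x l = (-1 : ℝ) ^ #K * ((1 / ((∏ l ∈ K, l : ℕ) : ℝ)) *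
        ∏ l ∈ K, (1 / ((l : ℝ) - 1))) := by
      simp only [hx]
      rw [Finset.prod_neg]
      congr 1
      push_cast
      rw [Finset.prod_div_distrib, Finset.prod_div_distrib, Finset.prod_const_one,
        Finset.prod_mul_distrib, div_mul_div_comm, one_mul]
    rw [e3, e4]
    ring
  rw [Finset.sum_congr rfl e1, sum_split _ _ hRL]
  simp only [hh]
  rw [Finset.sum_add_distrib, ← Finset.mul_sum]
  have e5 : ∑ S ∈ (PP L).powerset, ∏ l ∈ S, x l = artinL L := by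
    have h1 := Finset.prod_add (fun l => x l) (fun _ => (1 : ℝ)) (PP L)
    simp only [Finset.prod_const_one, mul_one] at h1
    rw [← h1]
    unfold artinL
    refine Finset.prod_congr rfl fun l _ => ?_
    simp only [hx]
    ring
  have hxne : ∀ l ∈ PP L, 1 + x l ≠ 0 := by
    intro l hl
    have hl2 : (2 : ℝ) ≤ l := by exact_mod_cast (mem_PP.1 hl).2.two_le
    simp only [hx]
    have h2 : (2 : ℝ) ≤ (l : ℝ) * ((l : ℝ) - 1) := by nlinarith
    have h3 : 1 / ((l : ℝ) * ((l : ℝ) - 1)) ≤ 1 / 2 := by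
      apply one_div_le_one_div_of_le
      · norm_num
      · exact h2
    have : (0 : ℝ) < 1 + -(1 / ((l : ℝ) * ((l : ℝ) - 1))) := by linarith
    exact this.ne'
  have e6 : ∑ S ∈ (PP L).powerset, (if s.T ⊆ S then (1 : ℝ) else 0) * ∏ l ∈ S, x l =
      artinL L * (s.cf - 1) := by
    rw [sum_contain _ _ hTL x hxne, ← prod_T]
    congr 1
  rw [e5, e6]
  unfold Bs.e
  split_ifs <;> ring

/-- the limit for the base `B` -/
theorem lim_B (R : Finset ℕ) (hR : ∀ l ∈ R, l.Prime) : by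
    classical
    exact Tendsto (M fun p => if gd Q0 Set.univ (Subgroup.zpowers s.u) 1 R p then
      gT 1 (Tp (⊥ : Subgroup ℚˣ) 1 R p) else 0) atTop (𝓝 (s.e R * artinC)) := by
  classical
  refine lim_of 1 _ _ (fun p _ => Tp_sub (⊥ : Subgroup ℚˣ) 1 R p)
    (dLr Q0 Set.univ (Subgroup.zpowers s.u) ⊥ 1 R) (s.e R * artinC) ?_ ?_
  · intro L
    exact avg_trunc Q0 Set.univ _ _ 1 R (fun _ _ _ => Set.mem_univ _)
      ⟨{s.u}, by simp [Subgroup.zpowers_eq_closure]⟩ ⟨∅, by simp⟩ hR L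
  · refine (artinLim.const_mul (s.e R)).congr' ?_
    filter_upwards [eventually_ge_atTop (R.sup id), eventually_ge_atTop (s.T.sup id)] with L hL hL2
    exact (dLr_B s R hR L (fun l hl => (Finset.le_sup (f := id) hl).trans hL)
      (fun l hl => (Finset.le_sup (f := id) hl).trans hL2)).symm

end Pool.Agent.TH893.BR
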