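import Pool.Agent.W171.LG.PowTwo2
import Pool.Agent.TH893.BR.LimB

/-! # The counting problem for the bases `B m ^ r` -/

set_option autoImplicit false
set_option linter.unusedSectionVars false

namespace Pool.Agent.TH893.BR

open NumberField Filter Topology Finset
open Pool.Agent.W401.Cheb
open Pool.Agent.W171.LG
open Pool.Agent.H386R2.Artin (PP Good hL LC_pos artinL artinC artinLim)
open Pool.Agent.H771R4.SE (Dat)
open Pool.Agent.H981R3.LN (ql Sk mem_Sk mem_PP Sk_dvd Sk_prime index_iff)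

section
variable {p : ℕ} [Fact p.Prime]

lemma B_ne (s : Bs) (hp : s.B.natAbs < p) : ((s.B : ℤ) : ZMod p) ≠ 0 := by
  intro h
  rw [ZMod.intCast_zmod_eq_zero_iff_dvd, Int.natCast_dvd] at h
  have := Nat.le_of_dvd (Int.natAbs_pos.2 s.B0) h
  omega

lemma rd_B (s : Bs) : rd p (s.u : ℚ) = ((s.B : ℤ) : ZMod p) := by
  unfold rd
  rw [s.u_coe, Rat.num_intCast, Rat.den_intCast]
  simp

lemma Un_B (s : Bs) (hp : s.B.natAbs < p) : Un p (s.u : ℚ) := by
  unfold Un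
  rw [s.u_coe, Rat.num_intCast, Rat.den_intCast]
  exact ⟨B_ne s hp, by simp⟩

lemma PW_B (s : Bs) (hp : s.B.natAbs < p) (q : ℕ) : PW (Subgroup.zpowers s.u) q p ↔
    q ∣ p - 1 ∧ ((s.B : ℤ) : ZMod p) ^ ((p - 1) / q) = 1 := by
  rw [Subgroup.zpowers_eq_closure, PW_closure]
  · simp only [Set.mem_singleton_iff, forall_eq, rd_B]
  · intro w hw
    rw [Set.mem_singleton_iff] at hw
    rw [hw]
    exact Un_B s hp

lemma pow_B_T (β : ZMod p) (hβ : β ≠ 0) (r : ℕ) (hr : 0 < r) :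
    ∃ m : ZMod p, m ≠ 0 ∧ ∀ a : ZMod p, a ≠ 0 → ∀ l : ℕ, l.Prime → l ∣ p - 1 → ¬ l ∣ r →
      ((β * a ^ r) ^ ((p - 1) / l) = 1 ↔ (m * a) ^ ((p - 1) / l) = 1) := by
  have hp1 : 0 < p - 1 := LC_pos
  set M : ℕ := ∏ l ∈ (p - 1).primeFactors.filter (fun l => ¬ l ∣ r), l with hM
  have hcop : Nat.Coprime r M := by
    apply Nat.Coprime.prod_right
    intro l hl
    rw [mem_filter, Nat.mem_primeFactors] at hl
    rw [Nat.coprime_comm]
    exact (Nat.Prime.coprime_iff_not_dvd hl.1.1).2 hl.2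
  have hM0 : 0 < M := Finset.prod_pos fun l hl => by
    rw [mem_filter, Nat.mem_primeFactors] at hl
    exact hl.1.1.pos
  set s : ℕ := r ^ (Nat.totient M - 1) with hs
  have hrs : r * s = r ^ Nat.totient M := by
    rw [hs, ← pow_succ', Nat.sub_add_cancel (Nat.totient_pos.2 hM0)]
  have hrs1 : M ∣ r * s - 1 := by
    have h1 := Nat.ModEq.pow_totient hcop
    rw [← hrs] at h1
    exact (Nat.modEq_iff_dvd' (by rw [hrs]; exact Nat.one_le_pow _ _ hr)).1 h1.symm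
  have hrs0 : 1 ≤ r * s := by rw [hrs]; exact Nat.one_le_pow _ _ hr
  refine ⟨β ^ s, pow_ne_zero _ hβ, fun a ha l hl hlp hlr => ?_⟩
  have hlM : l ∣ M := by
    rw [hM]
    refine Finset.dvd_prod_of_mem _ ?_
    rw [mem_filter, Nat.mem_primeFactors]
    exact ⟨⟨hl, hlp, hp1.ne'⟩, hlr⟩
  have e1 : (β * a ^ r) ^ ((p - 1) / l) = ((β ^ s * a) ^ ((p - 1) / l)) ^ r := by
    obtain ⟨t, ht⟩ := hlM.trans hrs1
    obtain ⟨u, hu⟩ := hlp
    have hl0 : 0 < l := hl.pos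
    have hu1 : (p - 1) / l = u := by rw [hu, Nat.mul_div_cancel_left _ hl0]
    rw [hu1]
    have h2 : r * s = l * t + 1 := by omega
    have h3 : (β : ZMod p) ^ (s * (u * r)) = β ^ u := by
      have : s * (u * r) = (p - 1) * t + u := by
        calc s * (u * r) = (r * s) * u := by ring
          _ = (l * t + 1) * u := by rw [h2]
          _ = (l * u) * t + u := by ring
          _ = _ := by rw [← hu]
      rw [this, pow_add, pow_mul, ZMod.pow_card_sub_one_eq_one hβ, one_pow, one_mul]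
    rw [mul_pow, mul_pow, mul_pow, ← pow_mul, ← pow_mul, ← pow_mul, ← pow_mul, h3, mul_comm r u]
  rw [e1]
  constructor
  · intro h
    have h2 : ((β ^ s * a) ^ ((p - 1) / l)) ^ l = 1 := by
      rw [← pow_mul, Nat.div_mul_cancel hlp]
      exact ZMod.pow_card_sub_one_eq_one (mul_ne_zero (pow_ne_zero _ hβ) ha)
    have h3 : orderOf ((β ^ s * a) ^ ((p - 1) / l)) ∣ Nat.gcd l r :=
      Nat.dvd_gcd (orderOf_dvd_of_pow_eq_one h2) (orderOf_dvd_of_pow_eq_one h)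
    rw [(Nat.Prime.coprime_iff_not_dvd hl).2 hlr, Nat.dvd_one, orderOf_eq_one_iff] at h3
    exact h3
  · intro h
    rw [h, one_pow]

lemma pow_B_R (β : ZMod p) (r : ℕ) (a : ZMod p) (ha : a ≠ 0) {l : ℕ} (hlp : l ∣ p - 1)
    (hlr : l ∣ r) : (β * a ^ r) ^ ((p - 1) / l) = β ^ ((p - 1) / l) := by
  obtain ⟨t, rfl⟩ := hlr
  rw [mul_pow, ← pow_mul]
  have h2 : l * t * ((p - 1) / l) = (p - 1) * t := by
    calc l * t * ((p - 1) / l) = (l * ((p - 1) / l)) * t := by ring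
      _ = _ := by rw [Nat.mul_div_cancel' hlp]
  rw [h2, pow_mul, ZMod.pow_card_sub_one_eq_one ha, one_pow, mul_one]

end

/-- the condition of the counting problem -/
theorem hQ_B (s : Bs) : ∃ p0 : ℕ, ∀ r : ℕ, 0 < r → ∀ p : ℕ, p.Prime → p0 ≤ p →
    ∃ m : ZMod p, m ≠ 0 ∧ ∀ a : ZMod p, a ≠ 0 →
      (orderOf (((s.B : ℤ) : ZMod p) * a ^ r) = p - 1 ↔
        gd Q0 Set.univ (Subgroup.zpowers s.u) 1 r.primeFactors p ∧
        ∀ l ∈ Tp (⊥ : Subgroup ℚˣ) 1 r.primeFactors p, (m * a) ^ ((p - 1) / ql 1 l) ≠ 1) := by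
  classical
  obtain ⟨D, hD, hDp⟩ := GF_triv
  refine ⟨D + s.B.natAbs + 3, fun r hr p hp hp0 => ?_⟩
  have : Fact p.Prime := ⟨hp⟩
  have hpB : s.B.natAbs < p := by omega
  have hβ := B_ne s hpB
  have hGF : GF Q0 Set.univ p := hDp p hp fun h => by
    have := Nat.le_of_dvd hD h
    omega
  have hp1 : p - 1 ≠ 0 := (LC_pos (p := p)).ne'
  obtain ⟨m, hm, h1⟩ := pow_B_T (p := p) ((s.B : ℤ) : ZMod p) hβ r hr
  refine ⟨m, hm, fun a ha => ?_⟩
  rw [order_iff]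
  have hne : ((s.B : ℤ) : ZMod p) * a ^ r ≠ 0 := mul_ne_zero hβ (pow_ne_zero _ ha)
  constructor
  · rintro ⟨-, h⟩
    refine ⟨⟨hGF, fun l hl hPW => ?_⟩, fun l hl h2 => ?_⟩
    · rw [Nat.mem_primeFactors] at hl
      rw [PW_B s hpB, ql_one] at hPW
      have hlS : l ∈ Sk 1 (p - 1) := by
        rw [mem_Sk hp1, ql_one]
        exact ⟨hl.1, hPW.1⟩
      have h3 := h l hlS
      rw [ql_one, pow_B_R _ r a ha hPW.1 hl.2.1] at h3
      exact h3 hPW.2
    · have hl : l ∈ (Sk 1 (p - 1)).filter (fun l => l ∉ r.primeFactors ∧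
          PW (⊥ : Subgroup ℚˣ) (ql 1 l) p) := by
        refine Eq.mp ?_ hl
        unfold Tp
        congr!
      rw [mem_filter] at hl
      have hlS := hl.1
      rw [mem_Sk hp1, ql_one] at hlS
      have hlr : ¬ l ∣ r := fun h4 => hl.2.1 (Nat.mem_primeFactors.2 ⟨hlS.1, h4, hr.ne'⟩)
      have h3 := h l hl.1
      rw [ql_one] at h2 h3
      exact h3 ((h1 a ha l hlS.1 hlS.2 hlr).2 h2)
  · rintro ⟨⟨-, hR⟩, hT⟩
    refine ⟨hne, fun l hl h2 => ?_⟩
    have hlS := hl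
    rw [mem_Sk hp1, ql_one] at hlS
    rw [ql_one] at h2
    by_cases hlr : l ∣ r
    · refine hR l (Nat.mem_primeFactors.2 ⟨hlS.1, hlr, hr.ne'⟩) ?_
      rw [PW_B s hpB, ql_one]
      refine ⟨hlS.2, ?_⟩
      rw [pow_B_R _ r a ha hlS.2 hlr] at h2
      exact h2
    · refine hT l ?_ ?_
      · have h5 : l ∈ (Sk 1 (p - 1)).filter (fun l => l ∉ r.primeFactors ∧
            PW (⊥ : Subgroup ℚˣ) (ql 1 l) p) := by
          rw [mem_filter, PW_bot, ql_one]
          exact ⟨hl, fun h4 => hlr (Nat.mem_primeFactors.1 h4).2.1, hlS.2⟩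
        refine Eq.mp ?_ h5
        unfold Tp
        congr!
      · rw [ql_one]
        exact (h1 a ha l hlS.1 hlS.2 hlr).1 h2

/-- the counting problem for the bases `B m ^ r` -/
noncomputable def datB (s : Bs) (r : ℕ+) : Dat :=
  mkDat Q0 Set.univ (Subgroup.zpowers s.u) ⊥ 1 (r : ℕ).primeFactors
    (s.e (r : ℕ).primeFactors * artinC)
    (lim_B s (r : ℕ).primeFactors fun l hl => (Nat.mem_primeFactors.1 hl).1)
    (fun p a => orderOf (((s.B : ℤ) : ZMod p) * a ^ (r : ℕ)) = p - 1) (hQ_B s).choose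
    ((hQ_B s).choose_spec r r.pos)

open Classical in
/-- local densities -/
noncomputable def GB (s : Bs) (R : Finset ℕ) (p : ℕ) : ℝ :=
  if p.Prime ∧ gd Q0 Set.univ (Subgroup.zpowers s.u) 1 R p then
    gT 1 (Tp (⊥ : Subgroup ℚˣ) 1 R p) else 0

lemma datB_A (s : Bs) (r : ℕ+) : (datB s r).A = s.e (r : ℕ).primeFactors * artinC := rfl

lemma datB_p0 (s : Bs) (r : ℕ+) : (datB s r).p0 = (hQ_B s).choose := rfl

lemma datB_Q (s : Bs) (r : ℕ+) (p : ℕ) (a : ZMod p) :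
    (datB s r).Q p a ↔ orderOf (((s.B : ℤ) : ZMod p) * a ^ (r : ℕ)) = p - 1 := Iff.rfl

lemma datB_G (s : Bs) (r : ℕ+) : (datB s r).G = GB s (r : ℕ).primeFactors := rfl

end Pool.Agent.TH893.BR
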