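import Pool.Agent.W171.LG.MeanU
import Pool.Agent.TH893.BR.PowB

/-! # The mean of the local densities, uniformly in the exponent -/

set_option autoImplicit false
set_option linter.unusedSectionVars false

namespace Pool.Agent.TH893.BR

open NumberField Filter Topology Finset
open Pool.Agent.W401.Cheb
open Pool.Agent.W171.LG
open Pool.Agent.H386R2.Artin (PP Good hL LC_pos artinL artinC artinLim)
open Pool.Agent.H771R4.SE (Dat)
open Pool.Agent.H981R3.LN (ql Sk mem_Sk mem_PP Sk_dvd Sk_prime)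
open Pool.Agent.W171.EP (sG card_PP mem_PP')

variable (s : Bs)

lemma GB_bounds (R : Finset ℕ) (p : ℕ) : 0 ≤ GB s R p ∧ GB s R p ≤ 1 := by
  unfold GB
  split_ifs with h
  · have : Fact p.Prime := ⟨h.1⟩
    exact gT_bounds (p := p) (Tp_sub (⊥ : Subgroup ℚˣ) 1 R p)
  · exact ⟨le_rfl, zero_le_one⟩

lemma GB_eq {R R0 : Finset ℕ} (hsub : R0 ⊆ R) {p : ℕ} (hp : p.Prime)
    (h : ∀ l ∈ R, l ∉ R0 → ¬ l ∣ p - 1) : GB s R p = GB s R0 p := by
  classical
  have : Fact p.Prime := ⟨hp⟩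
  have hp1 : p - 1 ≠ 0 := (LC_pos (p := p)).ne'
  have e1 : gd Q0 Set.univ (Subgroup.zpowers s.u) 1 R p ↔
      gd Q0 Set.univ (Subgroup.zpowers s.u) 1 R0 p := by
    unfold gd
    refine and_congr_right fun _ => ?_
    constructor
    · exact fun h1 l hl => h1 l (hsub hl)
    · intro h1 l hl hPW
      by_cases hl0 : l ∈ R0
      · exact h1 l hl0 hPW
      · apply h l hl hl0
        have := hPW.1
        rwa [ql_one] at this
  have e2 : Tp (⊥ : Subgroup ℚˣ) 1 R p = Tp (⊥ : Subgroup ℚˣ) 1 R0 p := by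
    unfold Tp
    ext l
    rw [mem_filter, mem_filter]
    refine and_congr_right fun hl => and_congr_left fun _ => ?_
    rw [mem_Sk hp1, ql_one] at hl
    constructor
    · exact fun h1 h2 => h1 (hsub h2)
    · intro h1 h2
      exact h l h2 h1 hl.2
  unfold GB
  rw [e2]
  by_cases hg : gd Q0 Set.univ (Subgroup.zpowers s.u) 1 R p
  · rw [if_pos ⟨hp, hg⟩, if_pos ⟨hp, e1.1 hg⟩]
  · rw [if_neg (fun h => hg h.2), if_neg (fun h => hg (e1.2 h.2))]

lemma GB_diff {R R0 : Finset ℕ} (hsub : R0 ⊆ R) (x : ℕ) :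
    |sG (GB s R) x - sG (GB s R0) x| ≤
      ∑ l ∈ R \ R0, ((Pool.Agent.H386R2.Artin.SH.A x l).card : ℝ) := by
  classical
  unfold sG
  rw [← Finset.sum_sub_distrib]
  refine (Finset.abs_sum_le_sum_abs _ _).trans ?_
  have h1 : ∀ p ∈ PP x, |GB s R p - GB s R0 p| ≤
      ∑ l ∈ R \ R0, (if l ∣ p - 1 then (1 : ℝ) else 0) := by
    intro p hp
    by_cases h : ∀ l ∈ R, l ∉ R0 → ¬ l ∣ p - 1
    · rw [GB_eq s hsub (mem_PP.1 hp).2 h, sub_self, abs_zero]
      exact Finset.sum_nonneg fun l _ => by split_ifs <;> norm_num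
    · push Not at h
      obtain ⟨l, hl, hl0, hlp⟩ := h
      have h2 : (1 : ℝ) ≤ ∑ l ∈ R \ R0, (if l ∣ p - 1 then (1 : ℝ) else 0) := by
        have := Finset.single_le_sum (f := fun l : ℕ => (if l ∣ p - 1 then (1 : ℝ) else 0))
          (fun l _ => by split_ifs <;> norm_num) (Finset.mem_sdiff.2 ⟨hl, hl0⟩)
        simp only [if_pos hlp] at this
        exact this
      refine le_trans ?_ h2
      obtain ⟨a1, a2⟩ := GB_bounds s R p
      obtain ⟨b1, b2⟩ := GB_bounds s R0 p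
      rw [abs_le]
      constructor <;> linarith
  refine (Finset.sum_le_sum h1).trans ?_
  rw [Finset.sum_comm]
  refine le_of_eq (Finset.sum_congr rfl fun l _ => ?_)
  rw [← Finset.sum_filter, Finset.sum_const, nsmul_eq_mul, mul_one]
  rfl

open Classical in
/-- the mean of the local densities -/
theorem mean_B : ∃ C1 : ℝ, 0 < C1 ∧ ∀ (δ : ℝ) (L : ℕ) (ε : ℝ), 0 < ε → ∃ x0 : ℕ,
    ∀ (N x : ℕ) (R : Finset ℕ), (∀ l ∈ R, l.Prime) → (#R : ℝ) ≤ (N : ℝ) ^ (1 / 4 : ℝ) →
      ∑ l ∈ R.filter (fun l => L < l), (1 / (l : ℝ)) ≤ δ → x0 ≤ x → N ≤ x →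
      |sG (GB s R) x - s.e R * artinC * (Nat.primeCounting x : ℝ)| ≤
        (C1 * δ + ε) * (Nat.primeCounting x : ℝ) := by
  obtain ⟨C1, hC1, hcount⟩ := count_S
  refine ⟨C1, hC1, fun δ L' ε hε => ?_⟩
  obtain ⟨x1, hx1⟩ := hcount (ε / 2) (by positivity)
  set L := max L' 2 with hL'
  -- the finitely many small parts
  have hfin : ∀ R0 : Finset ℕ, ∃ x2 : ℕ, (∀ l ∈ R0, l.Prime) → ∀ x : ℕ, x2 ≤ x →
      |sG (GB s R0) x - s.e R0 * artinC * (Nat.primeCounting x : ℝ)| ≤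
        ε / 2 * (Nat.primeCounting x : ℝ) := by
    intro R0
    by_cases hR0 : ∀ l ∈ R0, l.Prime
    swap
    · exact ⟨0, fun h => absurd h hR0⟩
    have h1 := lim_B s R0 hR0
    rw [Metric.tendsto_atTop] at h1
    obtain ⟨x2, hx2⟩ := h1 (ε / 2) (by positivity)
    have hπ : ∀ᶠ x : ℕ in atTop, (1 : ℝ) ≤ (Nat.primeCounting x : ℝ) :=
      (Filter.tendsto_atTop.mp (tendsto_natCast_atTop_atTop.comp Nat.tendsto_primeCounting) _)
    obtain ⟨x3, hx3⟩ := eventually_atTop.1 hπ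
    refine ⟨max x2 x3, fun _ x hx => ?_⟩
    have h4 := hx2 x ((le_max_left _ _).trans hx)
    have h5 := hx3 x ((le_max_right _ _).trans hx)
    have hP : (0 : ℝ) < (Nat.primeCounting x : ℝ) := lt_of_lt_of_le one_pos h5
    rw [Real.dist_eq, M_eq] at h4
    have e0 : (∑ p ∈ PP x, (if gd Q0 Set.univ (Subgroup.zpowers s.u) 1 R0 p then
        gT 1 (Tp (⊥ : Subgroup ℚˣ) 1 R0 p) else 0)) = sG (GB s R0) x := by
      unfold sG
      refine Finset.sum_congr rfl fun p hp => ?_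
      unfold GB
      simp only [(mem_PP.1 hp).2, true_and]
    rw [e0] at h4
    have h6 : sG (GB s R0) x - s.e R0 * artinC * (Nat.primeCounting x : ℝ) =
        (sG (GB s R0) x / (Nat.primeCounting x : ℝ) - s.e R0 * artinC) *
          (Nat.primeCounting x : ℝ) := by
      field_simp
    rw [h6, abs_mul, abs_of_pos hP]
    exact mul_le_mul_of_nonneg_right h4.le hP.le
  choose X hX using hfin
  refine ⟨max x1 ((PP L).powerset.sup X), fun N x R hR hRN hRδ hx hNx => ?_⟩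
  set R0 := R.filter (fun l => l ≤ L) with hR0
  have hsub : R0 ⊆ R := filter_subset _ _
  have hR0P : R0 ∈ (PP L).powerset := by
    rw [mem_powerset]
    intro l hl
    rw [hR0, mem_filter] at hl
    exact mem_PP.2 ⟨hl.2, hR l hl.1⟩
  have hx2 : X R0 ≤ x := (Finset.le_sup hR0P).trans ((le_max_right _ _).trans hx)
  have he : s.e R0 = s.e R := by
    unfold Bs.e
    have h2 : 2 ∈ R0 ↔ 2 ∈ R := by
      rw [hR0, mem_filter]
      exact ⟨fun h => h.1, fun h => ⟨h, le_max_right _ _⟩⟩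
    by_cases h : 2 ∈ R
    · rw [if_pos h, if_pos (h2.2 h)]
    · rw [if_neg h, if_neg (fun h' => h (h2.1 h'))]
  have k1 := hX R0 (fun l hl => hR l (hsub hl)) x hx2
  rw [he] at k1
  have k2 := GB_diff s hsub x
  have hS : R \ R0 = R.filter (fun l => L < l) := by
    ext l
    rw [Finset.mem_sdiff, hR0, mem_filter, mem_filter]
    constructor
    · rintro ⟨h1, h2⟩
      exact ⟨h1, by
        by_contra hcon
        exact h2 ⟨h1, by omega⟩⟩
    · rintro ⟨h1, h2⟩
      exact ⟨h1, fun h3 => by omega⟩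
  rw [hS] at k2
  have k3 := hx1 x ((le_max_left _ _).trans hx) (R.filter (fun l => L < l))
    (fun l hl => hR l (mem_filter.1 hl).1) (by
      have h1 : (#(R.filter (fun l => L < l)) : ℝ) ≤ #R := by
        exact_mod_cast card_le_card (filter_subset _ _)
      refine h1.trans (hRN.trans ?_)
      have h2 : (N : ℝ) ≤ x := by exact_mod_cast hNx
      exact Real.rpow_le_rpow (Nat.cast_nonneg _) h2 (by norm_num))
  have hP : (0 : ℝ) ≤ (Nat.primeCounting x : ℝ) := Nat.cast_nonneg _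
  have hδ' : ∑ l ∈ R.filter (fun l => L < l), (1 / (l : ℝ)) ≤ δ := by
    refine le_trans (Finset.sum_le_sum_of_subset_of_nonneg ?_ fun _ _ _ => by positivity) hRδ
    intro l hl
    rw [mem_filter] at hl ⊢
    exact ⟨hl.1, lt_of_le_of_lt (le_max_left _ _) hl.2⟩
  have k4 : (C1 * ∑ l ∈ R.filter (fun l => L < l), (1 / (l : ℝ)) + ε / 2) *
      (Nat.primeCounting x : ℝ) ≤ (C1 * δ + ε / 2) * (Nat.primeCounting x : ℝ) := by
    gcongr
  calc |sG (GB s R) x - s.e R * artinC * (Nat.primeCounting x : ℝ)|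
      ≤ |sG (GB s R) x - sG (GB s R0) x| +
          |sG (GB s R0) x - s.e R * artinC * (Nat.primeCounting x : ℝ)| :=
        abs_sub_le _ _ _
    _ ≤ (C1 * δ + ε / 2) * (Nat.primeCounting x : ℝ) + ε / 2 * (Nat.primeCounting x : ℝ) := by
        linarith
    _ = (C1 * δ + ε) * (Nat.primeCounting x : ℝ) := by ring

end Pool.Agent.TH893.BR
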