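import Pool.Agent.W171.LG.FamTwo
import Pool.Agent.TH893.BR.MeanB

/-! # Uniformity in the exponent for the bases `B m ^ r` -/

set_option autoImplicit false
set_option linter.unusedSectionVars false

namespace Pool.Agent.TH893.BR

open NumberField Filter Topology Finset
open Pool.Agent.W401.Cheb
open Pool.Agent.W171.LG (Wr)
open Pool.Agent.H386R2.Artin (PP artinC)
open Pool.Agent.H771R4.SE (Dat)
open Pool.Agent.W171.EP (sG badC badG unif_int unif_primes)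

/-- the exponents of given parity -/
def Idx (b : Bool) : Type := {r : ℕ+ // 2 ∈ (r : ℕ).primeFactors ↔ b = true}

/-- the density for the exponents of given parity -/
noncomputable def Bs.Ac (s : Bs) (b : Bool) : ℝ := (if b = true then s.cf else 1) * artinC

variable (s : Bs)

lemma datB_Ac (b : Bool) (i : Idx b) : (datB s i.1).A = s.Ac b := by
  rw [datB_A]
  unfold Bs.Ac Bs.e
  by_cases h : b = true
  · rw [if_pos (i.2.2 h), if_pos h]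
  · rw [if_neg (fun h' => h (i.2.1 h')), if_neg h]

lemma idx_ne (b : Bool) : ∃ _ : Idx b, True := by
  cases b
  · exact ⟨⟨1, by simp⟩, trivial⟩
  · exact ⟨⟨2, by
      constructor
      · intro _; rfl
      · intro _
        rw [Nat.mem_primeFactors]
        exact ⟨Nat.prime_two, by norm_num, by norm_num⟩⟩, trivial⟩

lemma hmean_B (b : Bool) (C1 : ℝ) (hC1 : 0 < C1)
    (hmU : ∀ (δ : ℝ) (L : ℕ) (ε : ℝ), 0 < ε → ∃ x0 : ℕ,
    ∀ (N x : ℕ) (R : Finset ℕ), (∀ l ∈ R, l.Prime) → (#R : ℝ) ≤ (N : ℝ) ^ (1 / 4 : ℝ) →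
      ∑ l ∈ (open Classical in R.filter (fun l => L < l)), (1 / (l : ℝ)) ≤ δ → x0 ≤ x → N ≤ x →
      |sG (GB s R) x - s.e R * artinC * (Nat.primeCounting x : ℝ)| ≤
        (C1 * δ + ε) * (Nat.primeCounting x : ℝ)) (L : ℕ → ℕ) (k : ℕ) :
    ∃ x0 : ℕ, ∀ (N x : ℕ) (i : Idx b), Wr (1 / (2 * C1 * (k + 1))) (L k) N i.1 → x0 ≤ x → N ≤ x →
      |sG (datB s i.1).G x - s.Ac b * (Nat.primeCounting x : ℝ)| ≤
        1 / (k + 1 : ℝ) * (Nat.primeCounting x : ℝ) := by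
  obtain ⟨x0, h⟩ := hmU (1 / (2 * C1 * (k + 1))) (L k) (1 / (2 * (k + 1))) (by positivity)
  refine ⟨x0, fun N x i hW hx hN => ?_⟩
  have h1 := h N x (i.1 : ℕ).primeFactors (fun l hl => (Nat.mem_primeFactors.1 hl).1) hW.1
    (by
      refine le_trans (le_of_eq ?_) hW.2
      congr!) hx hN
  have h2 : s.e (i.1 : ℕ).primeFactors * artinC = s.Ac b := by
    rw [← datB_A]
    exact datB_Ac s b i
  rw [h2] at h1
  rw [datB_G]
  refine h1.trans (le_of_eq ?_)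
  congr 1
  field_simp
  norm_num

open Classical in
theorem fam_int_B (bo : Bool) (C : ℝ) (hC : 1 < C) (b : ℝ) (S : ℕ → Finset ℕ)
    (hall : ∀ (D : Dat) (ε : ℝ), 0 < ε → ∃ N₀ : ℕ, ∀ N : ℕ, N₀ ≤ N →
        (#(badC D ε C b N \ S N) : ℝ) ≤ (N : ℝ) ^ (1 - b)) (ε : ℝ) (hε : 0 < ε) :
    ∃ δ : ℝ, 0 < δ ∧ ∀ L : ℕ, ∃ N₀ : ℕ, ∀ N : ℕ, N₀ ≤ N → ∀ i : Idx bo, Wr δ L N i.1 →
      (#(badC (datB s i.1) ε C b N \ S N) : ℝ) ≤ (N : ℝ) ^ (1 - b) := by
  obtain ⟨C1, hC1, hmU⟩ := mean_B s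
  obtain ⟨i0, -⟩ := idx_ne bo
  by_contra hcon
  push Not at hcon
  have hk : ∀ k : ℕ, ∃ L : ℕ, ∀ N₀ : ℕ, ∃ N : ℕ, N₀ ≤ N ∧ ∃ i : Idx bo,
      Wr (1 / (2 * C1 * (k + 1))) L N i.1 ∧
        (N : ℝ) ^ (1 - b) < (#(badC (datB s i.1) ε C b N \ S N) : ℝ) :=
    fun k => hcon _ (by positivity)
  choose L hL using hk
  obtain ⟨k, N₀, h⟩ := unif_int (fun i : Idx bo => datB s i.1) (s.Ac bo) (hQ_B s).choose
    (datB_Ac s bo) (fun i => (datB_p0 s i.1).le) i0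
    (fun k N i => Wr (1 / (2 * C1 * (k + 1))) (L k) N i.1) (hmean_B s bo C1 hC1 (by
      intro δ L' ε' hε'
      obtain ⟨x0, h⟩ := hmU δ L' ε' hε'
      refine ⟨x0, fun N x R a1 a2 a3 => h N x R a1 a2 ?_⟩
      refine le_trans (le_of_eq ?_) a3
      congr!) L) C hC b S hall ε hε
  obtain ⟨N, hN, i, hW, hb⟩ := hL k N₀
  exact absurd (h N hN i hW) (not_le.2 hb)

end Pool.Agent.TH893.BR
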